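import Pool.Agent.Helper81.RP.Sim
import Pool.Agent.Helper81.Sus3.Defs

/-!
# Programs of random access machines as machines with messages: bounds
-/

namespace Pool.Agent.Helper81.RP

open Pool.Agent.Helper65.LinSpace Pool.Agent.Helper78.Mpc Pool.Agent.Helper28.Ram
open Pool.Agent.Helper81.Sus2

/-! ### Words -/

theorem num_word {n : ℕ} (h : 0 < n) : num (word n) = n := by
  induction n using Nat.binaryRec' with
  | zero => exact absurd h (lt_irrefl 0)
  | bit b n hb ih =>
    unfold word
    rw [Nat.bits_append_bit _ _ hb]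
    rcases Nat.eq_zero_or_pos n with h0 | h0
    · subst h0
      rw [hb rfl]
      rfl
    · have hne : n.bits ≠ [] := by
        intro he
        have := ih h0
        have h1 := Pool.Agent.Helper31.TMS.bval_bits n
        rw [he] at h1
        have h2 : bval [] = 0 := rfl
        omega
      rw [List.dropLast_cons_of_ne_nil hne]
      show b.toNat + 2 * num (word n) = _
      rw [ih h0, Nat.bit_val]
      ring

theorem word_eq {n : ℕ} (h : 0 < n) : word n = wd n := by
  apply Pool.Agent.Helper78.Avg.num_injective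
  rw [num_word h, num_wd h]

theorem wd_inj {m n : ℕ} (hm : 0 < m) (hn : 0 < n) (h : wd m = wd n) : m = n := by
  rw [← num_wd hm, ← num_wd hn, h]

/-! ### Decompressors -/

theorem run_stop {E : Decomp} {w y D i : List Bool} {T : ℕ}
    (h : (E.run w y D i T).head? = some true) {T' : ℕ} (hT : T ≤ T') :
    E.run w y D i T' = E.run w y D i T := by
  induction T', hT using Nat.le_induction with
  | base => rfl
  | succ T' _ ih =>
    show (if (E.run w y D i T').head? = some true then E.run w y D i T' else _) = _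
    rw [if_pos (by rw [ih]; exact h), ih]

theorem says_fun {E : Decomp} {w y D i v v' : List Bool} {a a' : ℕ} (h : E.Says w y a D i v)
    (h' : E.Says w y a' D i v') : v = v' := by
  obtain ⟨T, h1, _, _⟩ := h
  obtain ⟨T', h1', _, _⟩ := h'
  have h2 : (E.run w y D i T).head? = some true := by rw [h1]; rfl
  have h2' : (E.run w y D i T').head? = some true := by rw [h1']; rfl
  have h3 : E.run w y D i T = E.run w y D i T' := by
    rcases le_total T T' with hle | hle
    · exact (run_stop h2 hle).symm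
    · exact run_stop h2' hle
  rw [h1, h1'] at h3
  simpa using h3

theorem says_mono {E : Decomp} {w y D i v : List Bool} {a a' : ℕ} (haa : a ≤ a')
    (h : E.Says w y a D i v) : E.Says w y a' D i v := by
  obtain ⟨T, h1, h2, h3⟩ := h
  exact ⟨T, h1, fun t ht => (h2 t ht).trans haa, fun t ht => (h3 t ht).trans haa⟩

/-! ### Bounds for the numbers of instructions and the constants -/

/-- A bound for the constants of an instruction. -/
def cst : Ins → ℕ
  | .const i k => i + k
  | .add i j k => i + j + k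
  | .sub i j k => i + j + k
  | .mul i j k => i + j + k
  | .div i j k => i + j + k
  | .load i j => i + j
  | .store i j => i + j
  | .input i j => i + j
  | .advice i j => i + j
  | .jump i l => i + l
  | .accept => 0

/-- A bound for the program. -/
def bd (P : List Ins) : ℕ := P.length + (P.map cst).sum

theorem cst_le {P : List Ins} {pc : ℕ} {o : Ins} (h : P[pc]? = some o) : cst o ≤ (P.map cst).sum :=
  List.single_le_sum (fun _ _ => Nat.zero_le _) _ (List.mem_map_of_mem (List.mem_of_getElem? h))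

theorem a0_le (P : List Ins) (pc : ℕ) : a0 P[pc]? ≤ bd P := by
  unfold bd
  rcases h : P[pc]? with _ | o
  · exact Nat.zero_le _
  · have h1 := cst_le h
    cases o <;> simp only [a0, cst] at h1 ⊢ <;> omega

theorem a1_le (P : List Ins) (pc u : ℕ) : a1 P[pc]? u ≤ bd P + u := by
  unfold bd
  rcases h : P[pc]? with _ | o
  · exact Nat.zero_le _
  · have h1 := cst_le h
    cases o <;> simp only [a1, cst] at h1 ⊢ <;> omega

theorem npc_le (P : List Ins) {pc : ℕ} (u : ℕ) (hpc : pc ≤ bd P) : npc P[pc]? pc u ≤ bd P := by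
  rcases h : P[pc]? with _ | o
  · exact hpc
  · have h1 := cst_le h
    have h2 : pc < P.length := (List.getElem?_eq_some_iff.1 h).1
    unfold bd at hpc ⊢
    cases o <;> simp only [npc, cst, ifz] at h1 ⊢ <;> first | omega | (split_ifs <;> omega)

theorem pc_le (P : List Ins) (w y : List Bool) (t : ℕ) : (conf P w y t).1 ≤ bd P := by
  induction t with
  | zero => exact Nat.zero_le _
  | succ t ih =>
    rw [conf_succ, step_eq]
    exact npc_le P _ ih

/-! ### Bounds for the machine -/

theorem pair_lt {a b k : ℕ} (ha : a < 2 ^ k) (hb : b < 2 ^ k) : Nat.pair a b < 2 ^ (2 * k) := by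
  refine (Nat.pair_lt_max_add_one_sq a b).trans_le ?_
  have h1 : max a b + 1 ≤ 2 ^ k := max_lt ha hb
  calc (max a b + 1) ^ 2 ≤ (2 ^ k) ^ 2 := Nat.pow_le_pow_left h1 2
    _ = 2 ^ (2 * k) := by rw [← pow_mul, mul_comm]

theorem length_wd_le {n k : ℕ} (hn : 0 < n) (h : n < 2 ^ (k + 1)) : (wd n).length ≤ k := by
  rw [length_wd hn]
  exact Nat.lt_succ_iff.1 (Nat.log_lt_of_lt_pow hn.ne' h)

theorem length_st {f p u v s : ℕ} (hf : f ≤ 1) (hp : p < 2 ^ (2 * s)) (hu : u < 2 ^ s)
    (hv : v < 2 ^ s) : (wd (st f p u v)).length ≤ 4 * s + 1 := by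
  refine length_wd_le (st_pos _ _ _ _) ?_
  have h1 := pair_lt hp (pair_lt hu hv)
  have h2 : 2 ^ (4 * s + 1 + 1) = 4 * 2 ^ (2 * (2 * s)) := by
    rw [show 4 * s + 1 + 1 = 2 * (2 * s) + 2 by ring, pow_add]
    ring
  unfold st
  omega

/-- The memory of the machine at the time `τ`. -/
theorem mem_mach (P : List Ins) (w y : List Bool) (g : ℕ → Bool) (τ : ℕ) :
    ((mach P).conf w y g τ).2 = memW w y (conf P w y ((τ + 1) / 3)).2 := by
  obtain ⟨t, ht⟩ : ∃ t, τ = 3 * t ∨ τ = 3 * t + 1 ∨ τ = 3 * t + 2 := ⟨τ / 3, by omega⟩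
  rcases ht with ht | ht | ht
  · rw [ht, conf_mach, show (3 * t + 1) / 3 = t by omega]
  · rw [ht, conf_mach1, show (3 * t + 1 + 1) / 3 = t by omega]
  · rw [ht, conf_mach2, show (3 * t + 2 + 1) / 3 = t + 1 by omega]

theorem memW_length {w y : List Bool} {R : ℕ → ℕ} {s : ℕ} (hs : 3 ≤ s) (hR : ∀ i, R i < 2 ^ s)
    (i : List Bool) : (memW w y R i).length ≤ s := by
  have h1 : ∀ j, (wd (R j + 1)).length ≤ s := fun j =>
    length_wd_le (Nat.succ_pos _) (by rw [pow_succ]; have := hR j; omega)
  rcases i with _ | ⟨b, u⟩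
  · exact h1 0
  · cases b
    · have h2 := let2_le w[bval u]? y[bval u]?
      have h3 : 2 ^ 4 ≤ 2 ^ (s + 1) := Nat.pow_le_pow_right (by norm_num) (by omega)
      exact length_wd_le (Nat.succ_pos _) (by omega)
    · exact h1 _

theorem fits_mach {P : List Ins} {w y : List Bool} (g : ℕ → Bool) {t s a : ℕ}
    (hs : 4 ≤ s) (hb : 3 * bd P + 3 ≤ 2 ^ s) (hR : ∀ u ≤ t, ∀ i, (conf P w y u).2 i < 2 ^ s)
    (ha : s ≤ a) : (mach P).Fits w y g (3 * t) (5 * s) a := by
  have h4 : 16 ≤ 2 ^ s := by
    calc 16 = 2 ^ 4 := by norm_num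
      _ ≤ 2 ^ s := Nat.pow_le_pow_right (by norm_num) hs
  have hss : 2 ^ s ≤ 2 ^ (2 * s) := Nat.pow_le_pow_right (by norm_num) (by omega)
  have hu : ∀ u ≤ t, uu P (conf P w y u) < 2 ^ s := fun u hu => hR u hu _
  have hv : ∀ u ≤ t, vv P w y (conf P w y u) < 2 ^ s := by
    intro u hu
    unfold vv ifz
    split_ifs
    · exact hR u hu _
    · have := let2_le w[uu P (conf P w y u)]? y[uu P (conf P w y u)]?
      omega
  have hadr : ∀ j : ℕ, j ≤ bd P + 2 ^ s → (wd (2 * j + 1)).length ≤ 5 * s := by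
    intro j hj
    refine length_wd_le (by omega) ?_
    have h1 : 2 ^ (5 * s + 1) = 2 ^ s * 2 ^ (4 * s + 1) := by
      rw [← pow_add]
      congr 1
      ring
    have h2 : 8 ≤ 2 ^ (4 * s + 1) := by
      calc 8 = 2 ^ 3 := by norm_num
        _ ≤ 2 ^ (4 * s + 1) := Nat.pow_le_pow_right (by norm_num) (by omega)
    rw [h1]
    nlinarith
  have hstate : ∀ u ≤ t, ∀ f ≤ 1, ∀ ph ≤ 2, ∀ x y' : ℕ, x < 2 ^ s → y' < 2 ^ s →
      (wd (st f (3 * (conf P w y u).1 + ph) x y')).length ≤ 5 * s := by
    intro u _ f hf ph hph x y' hx hy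
    have h1 := pc_le P w y u
    refine (length_st hf (lt_of_lt_of_le ?_ hss) hx hy).trans (by omega)
    omega
  intro τ hτ
  obtain ⟨u, ht⟩ : ∃ u, τ = 3 * u ∨ τ = 3 * u + 1 ∨ τ = 3 * u + 2 := ⟨τ / 3, by omega⟩
  have hut : u ≤ t := by omega
  have hmem : ∀ i, (((mach P).conf w y g τ).2 i).length ≤ a := by
    intro i
    rw [mem_mach]
    exact (memW_length (by omega) (hR _ (by omega)) i).trans ha
  refine ⟨?_, ?_, fun i _ => hmem i⟩
  · rcases ht with ht | ht | ht
    · rw [ht, conf_mach]
      exact hstate u hut _ (accF_le _ _) 0 (by omega) 0 0 (by omega) (by omega)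
    · rw [ht, conf_mach1]
      exact hstate u hut 0 (by omega) 1 (by omega) _ 0 (hu u hut) (by omega)
    · rw [ht, conf_mach2]
      exact hstate u hut 0 (by omega) 2 (by omega) _ _ (hu u hut) (hv u hut)
  · have hA : ∀ f ≤ 1, ∀ pc ph x y' : ℕ, ph ≤ 2 → x < 2 ^ s →
        ((mach P).addr (wd (st f (3 * pc + ph) x y'))).length ≤ 5 * s := by
      intro f hf pc ph x y' hph hx
      have h1 : (mach P).addr (wd (st f (3 * pc + ph) x y')) =
          wd (ifz ph (2 * a0 P[pc]? + 1) (ifz (ph - 1)
            (ifz (inp P[pc]?) (2 * a1 P[pc]? x + 1) (2 * bitsN x)) 1)) := by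
        refine wf_eq ?_ ?_
        · rw [num_wd (st_pos _ _ _ _)]
          unfold addrF
          rw [selF_eq, pOf_st hf, uOf_st hf, show (3 * pc + ph) % 3 = ph by omega,
            show (3 * pc + ph) / 3 = pc by omega]
        · unfold ifz
          have := num_pos x.bits
          rw [bitsN_eq]
          split_ifs <;> omega
      rw [h1]
      unfold ifz
      split_ifs
      · exact hadr _ (by have := a0_le P pc; omega)
      · exact hadr _ (by have := a1_le P pc x; omega)
      · rw [wd_cons_false _ (by rw [bitsN_eq]; exact num_pos _), bitsN_eq, wd_num]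
        have := length_bits hx
        show x.bits.length + 1 ≤ _
        omega
      · rw [wd_one]
        exact Nat.zero_le _
    rcases ht with ht | ht | ht
    · rw [ht, conf_mach]
      exact hA _ (accF_le _ _) _ 0 0 0 (by omega) (by omega)
    · rw [ht, conf_mach1]
      exact hA 0 (by omega) _ 1 _ 0 (by omega) (hu u hut)
    · rw [ht, conf_mach2]
      exact hA 0 (by omega) _ 2 _ _ (by omega) (hu u hut)

end Pool.Agent.Helper81.RP
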