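import Pool.Agent.Helper81.RP.Bnd

/-!
# Programs of random access machines as machines with messages: good computations
-/

namespace Pool.Agent.Helper81.RP

open Pool.Agent.Helper65.LinSpace Pool.Agent.Helper78.Mpc Pool.Agent.Helper28.Ram
open Pool.Agent.Helper81.Sus2

/-- A description of the registers of the program describes the memory of the machine. -/
theorem short_mach {P : List Ins} {E : Decomp} {w y : List Bool} {g : ℕ → Bool} {s a a' z m τ : ℕ}
    {D : List Bool} (haa : a ≤ a') (hm : m = (τ + 1) / 3) (h : Short P E w y s a z m) :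
    (mach P).Short E w y g (5 * s) a' z 0 D τ := by
  obtain ⟨d, hd, h1⟩ := h
  refine ⟨d, hd, fun i v hi hi0 => ?_⟩
  have hp := num_pos i
  have hodd : num i % 2 = 1 := by
    rcases i with _ | ⟨b', u'⟩
    · rfl
    · cases b'
      · exact absurd rfl hi0
      · show (true.toNat + 2 * num u') % 2 = 1
        rw [Bool.toNat_true]
        omega
  have hlt : num i < 2 ^ (5 * s + 1) := by
    have h2 : num i < 2 ^ (Nat.log 2 (num i) + 1) := Nat.lt_pow_succ_log_self (by norm_num) _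
    rw [log_num] at h2
    exact h2.trans_le (Nat.pow_le_pow_right (by norm_num) (by omega))
  have hj : num i / 2 < 2 ^ (5 * s) := by
    rw [pow_succ] at hlt
    omega
  have hiw : word (2 * (num i / 2) + 1) = i := by
    rw [word_eq (by omega), show 2 * (num i / 2) + 1 = num i by omega, wd_num]
  have hvp := num_pos v
  have hvw : ∀ x, num v = x + 1 → word (x + 1) = v := by
    intro x hx
    rw [word_eq (by omega : 0 < x + 1), ← hx, wd_num]
  have h2 := h1 (num i / 2)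
  rw [hiw] at h2
  have hmem : ((mach P).conf w y g τ).2 i = wd ((conf P w y m).2 (num i / 2) + 1) := by
    rw [mem_mach, ← hm, memW_num w y _ hi0]
  constructor
  · intro hs
    refine ⟨Or.inl rfl, ?_⟩
    have h3 := says_mono haa ((h2 _ hj).2 rfl)
    rw [hmem, says_fun hs h3, word_eq (Nat.succ_pos _)]
  · rintro ⟨-, h3⟩
    rw [hmem] at h3
    have h4 := says_mono haa ((h2 _ hj).2 rfl)
    rw [word_eq (Nat.succ_pos _), h3] at h4
    exact h4

/-- The number of messages. -/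
theorem msgs_mach (P : List Ins) (w y : List Bool) (g : ℕ → Bool) (t t' : ℕ) :
    (mach P).msgs w y g t t' ≤ (t' + 1) / 3 - (t + 1) / 3 := by
  unfold NBM.msgs
  have hsub : {i : ℕ | t ≤ i ∧ i < t' ∧ (mach P).msg ((mach P).conf w y g (i + 1)).1} ⊆
      ↑((Finset.Ico ((t + 1) / 3) ((t' + 1) / 3)).image fun q => 3 * q + 1) := by
    rintro i ⟨h1, h2, h3⟩
    have h4 : (i + 1) % 3 = 2 := by
      obtain ⟨q, hq⟩ : ∃ q, i + 1 = 3 * q ∨ i + 1 = 3 * q + 1 ∨ i + 1 = 3 * q + 2 :=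
        ⟨(i + 1) / 3, by omega⟩
      rcases hq with hq | hq | hq
      · rw [hq, conf_mach, msg_st P (accF_le _ _)] at h3
        have := of_decide_eq_true h3
        omega
      · rw [hq, conf_mach1, msg_st P (by omega)] at h3
        have := of_decide_eq_true h3
        omega
      · omega
    simp only [Finset.coe_image, Set.mem_image, Finset.coe_Ico, Set.mem_Ico]
    exact ⟨i / 3, ⟨by omega, by omega⟩, by omega⟩
  refine (Set.ncard_le_ncard hsub (Finset.finite_toSet _)).trans ?_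
  rw [Set.ncard_coe_finset]
  refine Finset.card_image_le.trans ?_
  rw [Nat.card_Ico]

theorem guesses_mach (P : List Ins) (w y : List Bool) (g : ℕ → Bool) (t t' : ℕ) :
    (mach P).guesses w y g t t' = 0 := by
  unfold NBM.guesses
  have : {i : ℕ | t ≤ i ∧ i < t' ∧ (mach P).ask ((mach P).conf w y g i).1} = ∅ := by
    ext i
    simp only [Set.mem_ofPred_eq, Set.mem_empty_iff_false, iff_false]
    rintro ⟨_, _, h⟩
    exact Bool.false_ne_true h
  rw [this, Set.ncard_empty]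

/-- The bounds. -/
theorem bounds {C N : ℝ} {l s a r : ℝ} (hl : 1 ≤ l) (hs : l ≤ s) (ha : 0 ≤ a) (hr : 0 ≤ r)
    (hN : 1 ≤ N) (b1 : r * s * l ^ 2 ≤ C * N ^ ((3 : ℝ) / 2)) (b2 : s * l ≤ C * N ^ ((1 : ℝ) / 2))
    (b3 : a * l ^ 2 ≤ C * N) :
    r * (5 * s + (2 + l)) * (2 + l) ^ 2 ≤ (100 * C + 100 * C ^ 2) * N ^ ((3 : ℝ) / 2) ∧
      (5 * s + (2 + l)) * (2 + 1) * (2 + l) ≤ (100 * C + 100 * C ^ 2) * N ^ ((1 : ℝ) / 2) ∧
      (a + 5 * s) * (2 + l) ^ 2 ≤ (100 * C + 100 * C ^ 2) * N := by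
  have hs1 : 1 ≤ s := hl.trans hs
  have hsq : (N ^ ((1 : ℝ) / 2)) ^ 2 = N := by
    rw [← Real.rpow_natCast, ← Real.rpow_mul (by linarith)]
    norm_num
  have hp : 0 ≤ N ^ ((1 : ℝ) / 2) := Real.rpow_nonneg (by linarith) _
  have hp3 : 0 ≤ N ^ ((3 : ℝ) / 2) := Real.rpow_nonneg (by linarith) _
  have hX : 5 * s + (2 + l) ≤ 8 * s := by linarith
  have hX0 : 0 ≤ 5 * s + (2 + l) := by linarith
  have hY : (2 + l) ^ 2 ≤ 9 * l ^ 2 := by nlinarith
  have hC0 : 0 ≤ C := by
    by_contra hcon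
    have h1 : C * N < 0 := mul_neg_of_neg_of_pos (not_le.1 hcon) (by linarith)
    have h2 : 0 ≤ a * l ^ 2 := by positivity
    linarith
  refine ⟨?_, ?_, ?_⟩
  · calc r * (5 * s + (2 + l)) * (2 + l) ^ 2 ≤ r * (8 * s) * (9 * l ^ 2) := by gcongr
      _ = 72 * (r * s * l ^ 2) := by ring
      _ ≤ 72 * (C * N ^ ((3 : ℝ) / 2)) := by gcongr
      _ = 72 * C * N ^ ((3 : ℝ) / 2) := by ring
      _ ≤ (100 * C + 100 * C ^ 2) * N ^ ((3 : ℝ) / 2) := by
        gcongr
        nlinarith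
  · calc (5 * s + (2 + l)) * (2 + 1) * (2 + l) ≤ (8 * s) * (2 + 1) * (3 * l) := by
          gcongr
          linarith
      _ = 72 * (s * l) := by ring
      _ ≤ 72 * (C * N ^ ((1 : ℝ) / 2)) := by gcongr
      _ = 72 * C * N ^ ((1 : ℝ) / 2) := by ring
      _ ≤ (100 * C + 100 * C ^ 2) * N ^ ((1 : ℝ) / 2) := by
        gcongr
        nlinarith
  · have h1 : s * l ^ 2 ≤ C ^ 2 * N := by
      have h2 : l ≤ s * l := by nlinarith
      calc s * l ^ 2 = (s * l) * l := by ring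
        _ ≤ (s * l) * (s * l) := by gcongr
        _ ≤ (C * N ^ ((1 : ℝ) / 2)) * (C * N ^ ((1 : ℝ) / 2)) := by gcongr
        _ = C ^ 2 * (N ^ ((1 : ℝ) / 2)) ^ 2 := by ring
        _ = C ^ 2 * N := by rw [hsq]
    calc (a + 5 * s) * (2 + l) ^ 2 ≤ (a + 5 * s) * (9 * l ^ 2) := by gcongr
      _ = 9 * (a * l ^ 2) + 45 * (s * l ^ 2) := by ring
      _ ≤ 9 * (C * N) + 45 * (C ^ 2 * N) := by gcongr
      _ ≤ (100 * C + 100 * C ^ 2) * N := by nlinarith [mul_nonneg hC0 (by linarith : (0:ℝ) ≤ N), mul_nonneg (sq_nonneg C) (by linarith : (0:ℝ) ≤ N)]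

/-- **Good computations.** -/
theorem good_of_within (P : List Ins) (E : Decomp) {c : ℕ} (hc : 0 < c) (C : ℝ) :
    ∃ (C' : ℝ) (n₁ : ℕ), ∀ w y : List Bool, n₁ ≤ w.length → Within P E c C w y →
      (mach P).Good E c C' w y := by
  refine ⟨100 * C + 100 * C ^ 2, 3 * bd P + 16 + ⌈(6 * |C| + 3) ^ 2⌉₊, ?_⟩
  rintro w y hw ⟨t, s, a, r, hls, hacc, hR, hsus, b1, b2, b3⟩
  have hn : w.length < 2 ^ s := by
    refine (Nat.lt_pow_succ_log_self (b := 2) (by norm_num) w.length).trans_le ?_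
    exact Nat.pow_le_pow_right (by norm_num) hls
  have hs2 : 4 ≤ s := by
    by_contra hcon
    have : 2 ^ s ≤ 2 ^ 3 := Nat.pow_le_pow_right (by norm_num) (by omega)
    omega
  have hb : 3 * bd P + 3 ≤ 2 ^ s := by omega
  set l : ℝ := (Nat.log 2 w.length : ℝ) + 1 with hl
  have hl1 : 1 ≤ l := by
    rw [hl]
    have : (0 : ℝ) ≤ Nat.log 2 w.length := Nat.cast_nonneg _
    linarith
  have hls' : l ≤ s := by
    rw [hl]
    exact_mod_cast hls
  have hN : (1 : ℝ) ≤ (w.length : ℝ) + 1 := by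
    have : (0 : ℝ) ≤ w.length := Nat.cast_nonneg _
    linarith
  obtain ⟨q1, q2, q3⟩ := bounds hl1 hls' (Nat.cast_nonneg a) (Nat.cast_nonneg r) hN b1 b2 b3
  refine ⟨fun _ => false, 3 * t, 5 * s, a + 5 * s, r, 2, 0, 0, 1,
    fun i => if i = 0 then 0 else 3 * t, fun _ => [], ?_, ?_, ?_, ?_, Nat.one_pos, le_rfl, ?_, ?_,
    ?_, ?_, ?_, ?_⟩
  · exact (accepts_iff P w y _ _).2 ⟨t, rfl, hacc⟩
  · exact fits_mach _ hs2 hb hR (by omega)
  · simp
  · simp
  · intro i hi
    have hi0 : i = 0 := by omega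
    subst hi0
    simp only [if_true, Nat.zero_add, one_ne_zero, if_false]
    refine ⟨Nat.zero_le _, ?_, ?_, ?_⟩
    · rw [guesses_mach]
      exact Nat.zero_le _
    · intro u _ _
      exact Or.inl rfl
    · intro u v _ huv hv hns
      have h1 : (v + 1) / 3 ≤ (u + 1) / 3 + r := by
        refine hsus _ _ (by omega) (by omega) fun m hm1 hm2 hsh => ?_
        exact hns (3 * m) (by omega) (by omega)
          (short_mach (a' := a + 5 * s) (by omega) (by omega) hsh)
      refine ⟨(msgs_mach P w y _ u v).trans (by omega), Or.inl ?_⟩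
      have : (2 : ℕ) ^ 2 = 4 := by norm_num
      omega
  · intro i hi0 hi
    omega
  · push_cast
    exact q1
  · push_cast
    exact q2
  · push_cast
    exact q3
  · have h1 : (6 : ℝ) * s + 2 ≤ (w.length : ℝ) + 1 := by
      have hNN : (6 * |C| + 3) ^ 2 ≤ (w.length : ℝ) + 1 := by
        have h2 : (⌈(6 * |C| + 3) ^ 2⌉₊ : ℝ) ≤ w.length := by exact_mod_cast (by omega)
        have h3 := Nat.le_ceil ((6 * |C| + 3) ^ 2)
        linarith
      set N : ℝ := (w.length : ℝ) + 1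
      have hsq : (N ^ ((1 : ℝ) / 2)) ^ 2 = N := by
        rw [← Real.rpow_natCast, ← Real.rpow_mul (by linarith)]
        norm_num
      have hp : 0 ≤ N ^ ((1 : ℝ) / 2) := Real.rpow_nonneg (by linarith) _
      have hC := abs_nonneg C
      have hroot : 6 * |C| + 3 ≤ N ^ ((1 : ℝ) / 2) := by
        refine le_of_sq_le_sq ?_ hp
        rw [hsq]
        exact hNN
      have h4 : (s : ℝ) ≤ |C| * N ^ ((1 : ℝ) / 2) := by
        have h5 : (s : ℝ) ≤ s * l := by nlinarith [Nat.cast_nonneg (α := ℝ) s]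
        have h6 : C * N ^ ((1 : ℝ) / 2) ≤ |C| * N ^ ((1 : ℝ) / 2) :=
          mul_le_mul_of_nonneg_right (le_abs_self C) hp
        linarith
      calc (6 : ℝ) * s + 2 ≤ 6 * (|C| * N ^ ((1 : ℝ) / 2)) + 3 * N ^ ((1 : ℝ) / 2) := by
            nlinarith
        _ = (6 * |C| + 3) * N ^ ((1 : ℝ) / 2) := by ring
        _ ≤ N ^ ((1 : ℝ) / 2) * N ^ ((1 : ℝ) / 2) := by gcongr
        _ = N := by rw [← sq, hsq]
    have h2 : 6 * s + 2 ≤ w.length + 1 := by exact_mod_cast h1
    calc (0 + 1) * (0 + 5 * s + (2 + (Nat.log 2 w.length + 1))) ≤ 6 * s + 2 := by omega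
      _ ≤ 1 * (w.length + 1) := by omega
      _ ≤ c * (w.length + 1) := Nat.mul_le_mul_right _ hc

end Pool.Agent.Helper81.RP
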