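import Pool.Agent.Helper81.RP.Good
import Pool.Agent.Helper81.Sus3.Final
import Pool.Agent.Helper31.Gen5.Hard
import Pool.Agent.Helper31.MHS.Two

/-!
# Sustained complexity of the memory: all bounds, and programs of random access machines
-/

namespace Pool.Agent.Helper81.RP

open Pool.Agent.Helper65.LinSpace Pool.Agent.Helper78.Mpc Pool.Agent.Helper28.Ram
open Pool.Agent.Helper81.Sus2 (NBM Decomp NF)
open Pool.Agent.Helper81.Sus3 (acc Parts exists_good)
open Pool.Agent.Helper81.Gen4 (Q Q_mono)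
open Pool.Agent.Helper31.Gen5 (Hard q_hard)
open Pool.Agent.Helper31.MHS (drp drp_num ls_drp q_take)

/-- The simulation, with the quantifiers for the last letters of `y` (even codes) or without them
(odd codes). -/
noncomputable def acc2 (Z : Pool.Agent.Helper81.Tok3.Sim) (c u x y T : ℕ) : ℕ :=
  acc Z c (u / 2) x (ifz (u % 2) y (drp (3 * c) x y)) T

theorem ls_acc2 (Z : Pool.Agent.Helper81.Tok3.Sim) (H : Parts) (c : ℕ) :
    LS (fun z : ℕ × ℕ × ℕ × ℕ => acc2 Z c z.1 z.2.1 z.2.2.1 z.2.2.2) := by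
  have h1 : LS (fun z : ℕ × ℕ × ℕ × ℕ => ifz (z.1 % 2) z.2.2.1 (drp (3 * c) z.2.1 z.2.2.1)) :=
    LS.ifz (by fun_prop) (by fun_prop)
      (LS.comp (g := fun z : ℕ × ℕ => drp (3 * c) z.1 z.2)
        (f := fun z : ℕ × ℕ × ℕ × ℕ => (z.2.1, z.2.2.1)) (ls_drp (3 * c)) (by fun_prop))
  exact LS.comp (g := fun z : ℕ × ℕ × ℕ × ℕ => acc Z c z.1 z.2.1 z.2.2.1 z.2.2.2)
    (f := fun z : ℕ × ℕ × ℕ × ℕ => (z.1 / 2, z.2.1,
      ifz (z.1 % 2) z.2.2.1 (drp (3 * c) z.2.1 z.2.2.1), z.2.2.2))
    (Pool.Agent.Helper81.Sus3.LS.acc Z H.lsw H.lse H.prm c) (by fun_prop)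

/-- **Hardness for machines with messages and described memory**, with and without quantifiers. -/
theorem nbm_hard (Z : Pool.Agent.Helper81.Tok3.Sim) (H : Parts) (c : ℕ) (hc : 0 < c) :
    ∃ L : Set (List Bool), DLINSPACE L ∧
      (∀ (A : NBM) (E : Decomp) (C : ℝ),
        Hard L c (fun w α => Q (c * w.length) fun v => ∃ g r, A.AcceptsAt w (α ++ v) g r)
          (fun w α => Q (c * w.length) fun v => A.Good E c C w (α ++ v))) ∧
      ∀ (A : NBM) (E : Decomp) (C : ℝ),
        Hard L c (fun w α => ∃ g r, A.AcceptsAt w α g r) (fun w α => A.Good E c C w α) := by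
  obtain ⟨L, h1, h4⟩ := q_hard (acc2 Z c) (NF c) (ls_acc2 Z H c)
    (Pool.Agent.Helper81.Sus2.LS.NF c) c c hc
  refine ⟨L, h1, fun A E C => ?_, fun A E C => ?_⟩
  · obtain ⟨e, n₀, he⟩ := exists_good Z H c A E C
    refine h4 (fun w y => ∃ g r, A.AcceptsAt w y g r) (A.Good E c C) ⟨2 * e, n₀, ?_⟩
    intro w y hw
    have e1 : 2 * e / 2 = e := by omega
    have e2 : 2 * e % 2 = 0 := by omega
    simp only [acc2, e1, e2, ifz, if_true]
    exact he w y hw
  · obtain ⟨e, n₀, he⟩ := exists_good Z H c A E C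
    have h := h4
      (fun w y => ∃ g r, A.AcceptsAt w (y.take (y.length - 3 * c * w.length)) g r)
      (fun w y => A.Good E c C w (y.take (y.length - 3 * c * w.length)))
      ⟨2 * e + 1, n₀, ?_⟩
    · exact h.mono (fun w α h5 => (q_take c w α fun y => ∃ g r, A.AcceptsAt w y g r).1 h5)
        (fun w α h5 => (q_take c w α fun y => A.Good E c C w y).2 h5)
    · intro w y hw
      have e1 : (2 * e + 1) / 2 = e := by omega
      have e2 : (2 * e + 1) % 2 = 1 := by omega
      simp only [acc2, e1, e2, ifz, one_ne_zero, if_false, drp_num]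
      exact he w _ hw

/-- Only long words matter. -/
theorem hard_large {L : Set (List Bool)} {c : ℕ} {Acc Good Good' : List Bool → List Bool → Prop}
    (h : Hard L c Acc Good) (n₁ : ℕ) (h2 : ∀ w α, n₁ ≤ w.length → Good' w α → Good w α) :
    Hard L c Acc Good' := by
  have hfin : ∀ n : ℕ, {w : List Bool | w.length = n}.Finite := fun n =>
    List.finite_length_eq Bool n
  have hcard : ∀ (n : ℕ) (p : List Bool → Prop), n < n₁ →
      ({w : List Bool | w.length = n ∧ p w}.ncard : ℝ) ≤ 2 ^ n₁ := by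
    intro n p hn
    have h3 : {w : List Bool | w.length = n ∧ p w}.ncard ≤ 2 ^ n := by
      refine (Set.ncard_le_ncard (t := {w : List Bool | w.length = n})
        (fun w hw => hw.1) (hfin n)).trans ?_
      rw [Pool.Agent.Helper81.Gen4.ncard_len]
    calc ({w : List Bool | w.length = n ∧ p w}.ncard : ℝ) ≤ 2 ^ n := by exact_mod_cast h3
      _ ≤ 2 ^ n₁ := pow_le_pow_right₀ (by norm_num) hn.le
  refine ⟨?_, ?_, ?_⟩
  · obtain ⟨c', h4⟩ := h.avg
    refine ⟨|c'| + 2 ^ n₁, fun n α M hM => ?_⟩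
    have hpos : (1 : ℝ) ≤ ((α.length : ℝ) + 1) * 2 ^ (((n : ℝ) + α.length / c) / 2) := by
      have h5 : (1 : ℝ) ≤ (α.length : ℝ) + 1 := by
        have : (0 : ℝ) ≤ α.length := Nat.cast_nonneg _
        linarith
      have h6 : (1 : ℝ) ≤ 2 ^ (((n : ℝ) + α.length / c) / 2) :=
        Real.one_le_rpow (by norm_num) (by positivity)
      nlinarith
    rcases lt_or_ge n n₁ with hn | hn
    · refine (hcard n _ hn).trans ?_
      have h7 : (2 : ℝ) ^ n₁ ≤ (|c'| + 2 ^ n₁) * (((α.length : ℝ) + 1) *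
          2 ^ (((n : ℝ) + α.length / c) / 2)) := by
        have h8 := abs_nonneg c'
        have h9 : (0 : ℝ) < 2 ^ n₁ := by positivity
        nlinarith
      have h10 : (0 : ℝ) ≤ 2 ^ n / 2 := by positivity
      rw [mul_assoc]
      linarith
    · refine (le_trans (Nat.cast_le.2 (Set.ncard_le_ncard ?_
        ((hfin n).subset fun w hw => hw.1))) (h4 n α M hM)).trans ?_
      · rintro w ⟨h5, h6, h7⟩
        exact ⟨h5, h6, fun h8 => h2 w α (by omega) (h7 h8)⟩
      · have h8 := le_abs_self c'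
        have h9 : (0 : ℝ) < 2 ^ n₁ := by positivity
        have h10 : c' * (((α.length : ℝ) + 1) * 2 ^ (((n : ℝ) + α.length / c) / 2)) ≤
            (|c'| + 2 ^ n₁) * (((α.length : ℝ) + 1) * 2 ^ (((n : ℝ) + α.length / c) / 2)) :=
          mul_le_mul_of_nonneg_right (by linarith) (by linarith)
        rw [mul_assoc, mul_assoc]
        linarith
  · obtain ⟨c', h4⟩ := h.rel
    refine ⟨|c'| + 2 ^ n₁, fun n α M hM => ?_⟩
    have hpos : (1 : ℝ) ≤ ((α.length : ℝ) + 1) * 2 ^ ((α.length : ℝ) / (2 * c)) := by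
      have h5 : (1 : ℝ) ≤ (α.length : ℝ) + 1 := by
        have : (0 : ℝ) ≤ α.length := Nat.cast_nonneg _
        linarith
      have h6 : (1 : ℝ) ≤ 2 ^ ((α.length : ℝ) / (2 * c)) :=
        Real.one_le_rpow (by norm_num) (by positivity)
      nlinarith
    have hsq := Real.sqrt_nonneg ({w : List Bool | w.length = n ∧ w ∉ M ∧ Acc w α}.ncard : ℝ)
    have h8 := abs_nonneg c'
    have h9 : (1 : ℝ) ≤ 2 ^ n₁ := one_le_pow₀ (by norm_num)
    rcases lt_or_ge n n₁ with hn | hn
    · refine (hcard n _ hn).trans ?_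
      have h7 : (2 : ℝ) ^ n₁ ≤ (|c'| + 2 ^ n₁) * (((α.length : ℝ) + 1) *
          2 ^ ((α.length : ℝ) / (2 * c))) := by
        nlinarith
      have h10 : (2 : ℝ) ^ n₁ ≤ Real.sqrt
          ({w : List Bool | w.length = n ∧ w ∉ M ∧ Acc w α}.ncard : ℝ) +
          (|c'| + 2 ^ n₁) * ((α.length : ℝ) + 1) * 2 ^ ((α.length : ℝ) / (2 * c)) := by
        rw [mul_assoc]
        linarith
      nlinarith
    · refine (le_trans (Nat.cast_le.2 (Set.ncard_le_ncard ?_
        ((hfin n).subset fun w hw => hw.1))) (h4 n α M hM)).trans ?_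
      · rintro w ⟨h5, h6, h7⟩
        exact ⟨h5, h6, h2 w α (by omega) h7⟩
      · have h10 : c' * (((α.length : ℝ) + 1) * 2 ^ ((α.length : ℝ) / (2 * c))) ≤
            (|c'| + 2 ^ n₁) * (((α.length : ℝ) + 1) * 2 ^ ((α.length : ℝ) / (2 * c))) :=
          mul_le_mul_of_nonneg_right (by have := le_abs_self c'; linarith) (by linarith)
        have h11 : -((|c'| + 2 ^ n₁) * (((α.length : ℝ) + 1) *
            2 ^ ((α.length : ℝ) / (2 * c)))) ≤
            c' * (((α.length : ℝ) + 1) * 2 ^ ((α.length : ℝ) / (2 * c))) := by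
          rw [← neg_mul]
          exact mul_le_mul_of_nonneg_right (by have := neg_abs_le c'; linarith) (by linarith)
        rw [mul_assoc, mul_assoc]
        refine sq_le_sq' ?_ ?_ <;> linarith
  · intro M hM h4
    refine ((h.ae M hM h4).union (List.finite_length_lt Bool n₁)).subset fun w hw => ?_
    rcases lt_or_ge w.length n₁ with hn | hn
    · exact Or.inr hn
    · exact Or.inl (h2 w [] hn hw)

/-- Hardness for machines with messages gives hardness for programs of random access machines, with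
quantifiers. -/
theorem prog_hard_q {c : ℕ} (hc : 0 < c) {L : Set (List Bool)}
    (h : ∀ (A : NBM) (E : Decomp) (C : ℝ),
      Hard L c (fun w α => Q (c * w.length) fun v => ∃ g r, A.AcceptsAt w (α ++ v) g r)
        (fun w α => Q (c * w.length) fun v => A.Good E c C w (α ++ v)))
    (P : List Ins) (E : Decomp) (C : ℝ) :
    Hard L c (fun w α => Q (c * w.length) fun v => ∃ t, AcceptsAt P w (α ++ v) t)
      (fun w α => Q (c * w.length) fun v => Within P E c C w (α ++ v)) := by
  obtain ⟨C', n₁, h1⟩ := good_of_within P E hc C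
  refine (hard_large (h (mach P) E C') n₁ (Good' := fun w α => Q (c * w.length) fun v =>
    Within P E c C w (α ++ v)) fun w α hw =>
    Q_mono fun x u y _ _ _ => h1 w _ hw).mono ?_ fun w _ hw => hw
  intro w α
  refine Q_mono fun x u y _ _ _ => ?_
  rintro ⟨g, r, h2⟩
  obtain ⟨t, _, ht⟩ := (accepts_iff P w _ g r).1 h2
  exact ⟨t, ht⟩

/-- Hardness for machines with messages gives hardness for programs of random access machines. -/
theorem prog_hard {c : ℕ} (hc : 0 < c) {L : Set (List Bool)}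
    (h : ∀ (A : NBM) (E : Decomp) (C : ℝ),
      Hard L c (fun w α => ∃ g r, A.AcceptsAt w α g r) (fun w α => A.Good E c C w α))
    (P : List Ins) (E : Decomp) (C : ℝ) :
    Hard L c (fun w α => ∃ t, AcceptsAt P w α t) (fun w α => Within P E c C w α) := by
  obtain ⟨C', n₁, h1⟩ := good_of_within P E hc C
  refine (hard_large (h (mach P) E C') n₁ fun w α hw hg => h1 w α hw hg).mono ?_
    fun w _ hw => hw
  rintro w α ⟨g, r, h2⟩
  obtain ⟨t, _, ht⟩ := (accepts_iff P w α g r).1 h2
  exact ⟨t, ht⟩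

/-- **Sustained memory of random access machines and of nondeterministic machines.** -/
theorem sustained6 (c : ℕ) (hc : 0 < c) :
    (∀ (A : NBM) (E : Decomp) (L : Set (List Bool)) (C : ℝ),
      (∀ w, Q (c * w.length) (fun v => ∃ g r, A.AcceptsAt w v g r) → w ∈ L) →
      (∀ w ∈ L, Q (c * w.length) (A.Good E c C w)) → DLINSPACE L) ∧
    ∃ L : Set (List Bool), DLINSPACE L ∧
      (∀ (A : NBM) (E : Decomp) (C : ℝ),
        Hard L c (fun w α => Q (c * w.length) fun v => ∃ g r, A.AcceptsAt w (α ++ v) g r)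
          (fun w α => Q (c * w.length) fun v => A.Good E c C w (α ++ v))) ∧
      ∀ (P : List Ins) (E : Decomp) (C : ℝ),
        Hard L c (fun w α => ∃ t, AcceptsAt P w α t) (fun w α => Within P E c C w α) ∧
        Hard L c (fun w α => Q (c * w.length) fun v => ∃ t, AcceptsAt P w (α ++ v) t)
          (fun w α => Q (c * w.length) fun v => Within P E c C w (α ++ v)) := by
  refine ⟨(Pool.Agent.Helper81.Sus3.sustained3 c hc).1, ?_⟩
  obtain ⟨L, h1, h2, h3⟩ :=
    nbm_hard Pool.Agent.Helper81.Tok3.theSim Pool.Agent.Helper81.Sus3.parts c hc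
  exact ⟨L, h1, h2, fun P E C => ⟨prog_hard hc h3 P E C, prog_hard_q hc h2 P E C⟩⟩

end Pool.Agent.Helper81.RP
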