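import Pool.Agent.Helper81.Sus2.Defs

/-!
# Random access machines with a program: definitions
-/

namespace Pool.Agent.Helper81.RP

open Pool.Agent.Helper81.Sus2 (Decomp)

/-- The instructions of a random access machine with the registers `R 0, R 1, R 2, …`, which contain
natural numbers:

* `const i k`: `R i := k`
* `add i j k`: `R i := R j + R k`
* `sub i j k`: `R i := R j - R k` (`0` if this is negative)
* `mul i j k`: `R i := R j * R k`
* `div i j k`: `R i := R j / R k` (rounded down)
* `load i j`: `R i := R (R j)`
* `store i j`: `R (R i) := R j`
* `input i j`: `R i := 0` if the input word has no letter with the number `R j`, `R i := 1` if this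
  letter is `0`, `R i := 2` if it is `1`
* `advice i j`: the same for the second word
* `jump i l`: if `R i = 0` then continue with the instruction number `l`
* `accept`: stop and accept -/
inductive Ins
  | const (i k : ℕ)
  | add (i j k : ℕ)
  | sub (i j k : ℕ)
  | mul (i j k : ℕ)
  | div (i j k : ℕ)
  | load (i j : ℕ)
  | store (i j : ℕ)
  | input (i j : ℕ)
  | advice (i j : ℕ)
  | jump (i l : ℕ)
  | accept

/-- The number of a letter. -/
def lett : Option Bool → ℕ
  | none => 0
  | some false => 1
  | some true => 2

/-- One step of the program `P` on the input word `w` and the second word `y`. A configuration consists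
of the number of the next instruction and the contents of the registers. The machine stops at `accept`
and if there is no instruction with this number. -/
def step (P : List Ins) (w y : List Bool) (c : ℕ × (ℕ → ℕ)) : ℕ × (ℕ → ℕ) :=
  match P[c.1]? with
  | some (.const i k) => (c.1 + 1, Function.update c.2 i k)
  | some (.add i j k) => (c.1 + 1, Function.update c.2 i (c.2 j + c.2 k))
  | some (.sub i j k) => (c.1 + 1, Function.update c.2 i (c.2 j - c.2 k))
  | some (.mul i j k) => (c.1 + 1, Function.update c.2 i (c.2 j * c.2 k))
  | some (.div i j k) => (c.1 + 1, Function.update c.2 i (c.2 j / c.2 k))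
  | some (.load i j) => (c.1 + 1, Function.update c.2 i (c.2 (c.2 j)))
  | some (.store i j) => (c.1 + 1, Function.update c.2 (c.2 i) (c.2 j))
  | some (.input i j) => (c.1 + 1, Function.update c.2 i (lett w[c.2 j]?))
  | some (.advice i j) => (c.1 + 1, Function.update c.2 i (lett y[c.2 j]?))
  | some (.jump i l) => (if c.2 i = 0 then l else c.1 + 1, c.2)
  | some .accept => c
  | none => c

/-- The configuration after `t` steps; at the start all registers contain `0`. -/
def conf (P : List Ins) (w y : List Bool) (t : ℕ) : ℕ × (ℕ → ℕ) :=
  (step P w y)^[t] (0, fun _ => 0)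

/-- The program accepts the word `w`, with the second word `y`, after `t` steps. -/
def AcceptsAt (P : List Ins) (w y : List Bool) (t : ℕ) : Prop :=
  P[(conf P w y t).1]? = some .accept

/-- The binary digits of the number `n`, the least significant digit first, without the leading digit
`1`. For `n = 1, 2, 3, …` this is every word exactly once. -/
def word (n : ℕ) : List Bool := n.bits.dropLast

/-- At the time `m` the memory has a description of at most `z` bits for the decompressor `E`: from a
word `d` of at most `z` bits (and the two given words) it computes the contents of all registers with numbers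
less than `2 ^ (5 s)`; the register `i` is given by the word `word (2 i + 1)`, the content `x` by the
word `word (x + 1)`, and the states of the decompressor have at most `a` bits. -/
def Short (P : List Ins) (E : Decomp) (w y : List Bool) (s a z m : ℕ) : Prop :=
  ∃ d : List Bool, d.length ≤ z ∧ ∀ i x : ℕ, i < 2 ^ (5 * s) →
    (E.Says w y a d (word (2 * i + 1)) (word (x + 1)) ↔ (conf P w y m).2 i = x)

/-- The program `P` accepts the word `w` of length `n`, with the second word `y`, at some time `t`, with
the following bounds. All
numbers are less than `2 ^ s`. If the memory has no description of at most `c n` bits at the times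
strictly between `u` and `v ≤ t`, then `v - u` is at most `r`. For `l = ⌊log₂ n⌋ + 1 ≤ s`:
`r s l ^ 2 ≤ C (n + 1) ^ (3 / 2)`, `s l ≤ C (n + 1) ^ (1 / 2)` and `a l ^ 2 ≤ C (n + 1)`. For example, `P`
accepts `w` in `C n ^ (3 / 2) / log ^ 3 n` steps with numbers of `O(log n)` bits. -/
def Within (P : List Ins) (E : Decomp) (c : ℕ) (C : ℝ) (w y : List Bool) : Prop :=
  ∃ t s a r : ℕ, Nat.log 2 w.length + 1 ≤ s ∧ AcceptsAt P w y t ∧
    (∀ u ≤ t, ∀ i, (conf P w y u).2 i < 2 ^ s) ∧
    (∀ u v : ℕ, u ≤ v → v ≤ t →
      (∀ m, u < m → m < v → ¬Short P E w y s a (c * w.length) m) → v ≤ u + r) ∧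
    (r : ℝ) * s * ((Nat.log 2 w.length : ℝ) + 1) ^ 2 ≤ C * ((w.length : ℝ) + 1) ^ ((3 : ℝ) / 2) ∧
    (s : ℝ) * ((Nat.log 2 w.length : ℝ) + 1) ≤ C * ((w.length : ℝ) + 1) ^ ((1 : ℝ) / 2) ∧
    (a : ℝ) * ((Nat.log 2 w.length : ℝ) + 1) ^ 2 ≤ C * ((w.length : ℝ) + 1)

end Pool.Agent.Helper81.RP
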