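import Pool.Agent.Helper31.TMS.Lin
import Pool.Agent.Helper31.TMS.Enc
import Pool.Agent.Helper31.SusD.Grd

/-!
# Decoding in linear space
-/

namespace Pool.Agent.Helper81.RP

open Pool.Agent.Helper65.LinSpace Pool.Agent.Helper78.Mpc Finset
open Pool.Agent.Helper31.SusD (lst)

/-! ### Words with a given number -/

/-- The word with the number `n`. -/
noncomputable def wd (n : ℕ) : List Bool :=
  open Classical in if h : 0 < n then (exists_num h).choose else []

theorem num_wd {n : ℕ} (h : 0 < n) : num (wd n) = n := by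
  unfold wd
  rw [dif_pos h]
  exact (exists_num h).choose_spec

theorem wd_num (w : List Bool) : wd (num w) = w :=
  Pool.Agent.Helper78.Avg.num_injective (num_wd (num_pos w))

/-- The function on words given by a function on numbers. -/
noncomputable def wf (F : ℕ → ℕ) (w : List Bool) : List Bool := wd (F (num w) - 1 + 1)

theorem wf_eq {F : ℕ → ℕ} {w : List Bool} {n : ℕ} (h : F (num w) = n) (hn : 0 < n) :
    wf F w = wd n := by
  unfold wf
  rw [h, Nat.sub_add_cancel hn]

theorem linComp_wf {F : ℕ → ℕ} (hF : LS F) : LinComp (wf F) := by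
  refine Pool.Agent.Helper31.TMS.linComp_of_ls (F := fun x => F x - 1 + 1) (by fun_prop) fun w => ?_
  unfold wf
  rw [num_wd (Nat.succ_pos _)]

theorem wd_cons_true (n : ℕ) (hn : 0 < n) : wd (2 * n + 1) = true :: wd n := by
  apply Pool.Agent.Helper78.Avg.num_injective
  rw [num_wd (by omega)]
  show _ = true.toNat + 2 * num (wd n)
  rw [num_wd hn, Bool.toNat_true]
  omega

theorem wd_cons_false (n : ℕ) (hn : 0 < n) : wd (2 * n) = false :: wd n := by
  apply Pool.Agent.Helper78.Avg.num_injective
  rw [num_wd (by omega)]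
  show _ = false.toNat + 2 * num (wd n)
  rw [num_wd hn, Bool.toNat_false]
  omega

theorem length_wd {n : ℕ} (hn : 0 < n) : (wd n).length = Nat.log 2 n := by
  rw [← log_num, num_wd hn]

theorem ls_pair {α : Type} [Ctx α] {f g : α → ℕ} (hf : LS f) (hg : LS g) :
    LS (fun a => Nat.pair (f a) (g a)) := by
  have e : (fun a => Nat.pair (f a) (g a)) = fun a => ifz (lt01 (f a) (g a))
      (f a * f a + f a + g a) (g a * g a + f a) := by
    funext a
    unfold Nat.pair lt01
    by_cases h : f a < g a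
    · rw [if_pos h, if_pos h, ifz_ne one_ne_zero]
    · rw [if_neg h, if_neg h, ifz_zero]
  rw [e]
  fun_prop

/-! ### Decoding `⟨q⟩ r` -/

/-- `1` if `x` is the number of `⟨q⟩ r` for some `r`, `q` being the word with the number `q`. -/
def exN (x q : ℕ) : ℕ :=
  lt01 0 q * lt01 0 (∑ r ∈ range (x + 1), lt01 0 r * eq01 (catN (sdN q) r) x)

/-- The first part. -/
def hd (x : ℕ) : ℕ := lst (x + 1) fun q => exN x q

/-- The second part. -/
def tl (x : ℕ) : ℕ := lst (x + 1) fun r => lt01 0 r * eq01 (catN (sdN (hd x)) r) x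

theorem ls_exN : LS (fun z : ℕ × ℕ => exN z.1 z.2) := by
  unfold exN
  have h1 : LS (fun z : ℕ × ℕ => ∑ r ∈ range (z.1 + 1), lt01 0 r * eq01 (catN (sdN z.2) r) z.1) := by
    refine LS.sum_le (N := fun z : ℕ × ℕ => z.1 + 1) (B := fun _ => 1)
      (f := fun z r => lt01 0 r * eq01 (catN (sdN z.2) r) z.1) (by fun_prop) (by fun_prop)
      (LS.const 1) fun z r _ => ?_
    unfold lt01 eq01
    split_ifs <;> norm_num
  fun_prop

theorem ls_hd : LS hd := by
  unfold hd
  refine Pool.Agent.Helper31.SusD.LS.lst (N := fun x => x + 1) (p := fun x q => exN x q)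
    (by fun_prop) ls_exN fun a m => ?_
  unfold exN lt01
  split_ifs <;> norm_num

theorem ls_tl : LS tl := by
  unfold tl
  refine Pool.Agent.Helper31.SusD.LS.lst (N := fun x => x + 1)
    (p := fun x r => lt01 0 r * eq01 (catN (sdN (hd x)) r) x)
    (by fun_prop) ?_ fun a m => ?_
  · have h1 : LS (fun z : ℕ × ℕ => hd z.1) := LS.comp (g := hd) ls_hd (by fun_prop)
    fun_prop
  · unfold lt01 eq01
    split_ifs <;> norm_num

theorem lt01_of {a b : ℕ} (h : a < b) : lt01 a b = 1 := by
  unfold lt01
  rw [if_pos h]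

theorem eq01_of {a b : ℕ} (h : a = b) : eq01 a b = 1 := by
  unfold eq01
  rw [if_pos h]

theorem lt01_ne {a b : ℕ} (h : lt01 a b ≠ 0) : a < b := by
  unfold lt01 at h
  by_contra hcon
  rw [if_neg hcon] at h
  exact h rfl

theorem eq01_ne {a b : ℕ} (h : eq01 a b ≠ 0) : a = b := by
  unfold eq01 at h
  by_contra hcon
  rw [if_neg hcon] at h
  exact h rfl

theorem le_num_right (u v : List Bool) : num v ≤ num (u ++ v) := by
  induction u with
  | nil => exact le_rfl
  | cons b u ih =>
    show num v ≤ b.toNat + 2 * num (u ++ v)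
    omega

theorem le_num_sd (q r : List Bool) : num q ≤ num (sd q ++ r) := by
  induction q with
  | nil =>
    show 1 ≤ num (sd [] ++ r)
    exact num_pos _
  | cons b q ih =>
    show b.toNat + 2 * num q ≤ num (true :: b :: (sd q ++ r))
    show b.toNat + 2 * num q ≤ true.toNat + 2 * (b.toNat + 2 * num (sd q ++ r))
    have : b.toNat ≤ 1 := toNat_le_one b
    omega

theorem hd_eq (q r : List Bool) : hd (num (sd q ++ r)) = num q := by
  set x := num (sd q ++ r) with hx
  have h1 : exN x (num q) ≠ 0 := by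
    unfold exN
    have h2 : lt01 0 (num q) = 1 := by
      unfold lt01
      rw [if_pos (num_pos q)]
    have h3 : 0 < ∑ r ∈ range (x + 1), lt01 0 r * eq01 (catN (sdN (num q)) r) x := by
      refine sum_pos' (fun _ _ => Nat.zero_le _) ⟨num r, mem_range.2 ?_, ?_⟩
      · have := le_num_right (sd q) r
        omega
      · rw [sdN_num, catN_num, ← hx]
        unfold lt01 eq01
        rw [if_pos (num_pos r), if_pos rfl]
        norm_num
    have h4 : lt01 0 (∑ r ∈ range (x + 1), lt01 0 r * eq01 (catN (sdN (num q)) r) x) = 1 :=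
      lt01_of h3
    rw [h2, h4]
    norm_num
  have h5 : num q < x + 1 := by
    have := le_num_sd q r
    omega
  obtain ⟨h6, h7⟩ := Pool.Agent.Helper31.SusD.lst_spec (N := x + 1) (p := fun q => exN x q)
    (m := num q) h5 h1
  change exN x (hd x) ≠ 0 at h6
  unfold exN at h6
  have h8 := lt01_ne (left_ne_zero_of_mul h6)
  have h9 := lt01_ne (right_ne_zero_of_mul h6)
  obtain ⟨r', _, hr'⟩ := exists_ne_zero_of_sum_ne_zero h9.ne'
  have h10 := lt01_ne (left_ne_zero_of_mul hr')
  have h11 := eq01_ne (right_ne_zero_of_mul hr')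
  obtain ⟨q', hq'⟩ := exists_num h8
  obtain ⟨v', hv'⟩ := exists_num h10
  rw [← hq', ← hv', sdN_num, catN_num, hx] at h11
  have h12 := Pool.Agent.Helper78.Avg.num_injective h11
  rw [← hq', (Pool.Agent.Helper31.TMS.sd_inj h12).1]

theorem tl_eq (q r : List Bool) : tl (num (sd q ++ r)) = num r := by
  set x := num (sd q ++ r) with hx
  have h0 : hd x = num q := hd_eq q r
  have h1 : lt01 0 (num r) * eq01 (catN (sdN (hd x)) (num r)) x ≠ 0 := by
    rw [h0, sdN_num, catN_num, ← hx]
    unfold lt01 eq01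
    rw [if_pos (num_pos r), if_pos rfl]
    norm_num
  have h5 : num r < x + 1 := by
    have := le_num_right (sd q) r
    omega
  obtain ⟨h6, _⟩ := Pool.Agent.Helper31.SusD.lst_spec (N := x + 1)
    (p := fun r => lt01 0 r * eq01 (catN (sdN (hd x)) r) x) (m := num r) h5 h1
  change lt01 0 (tl x) * eq01 (catN (sdN (hd x)) (tl x)) x ≠ 0 at h6
  have h10 := lt01_ne (left_ne_zero_of_mul h6)
  have h11 := eq01_ne (right_ne_zero_of_mul h6)
  obtain ⟨v', hv'⟩ := exists_num h10
  rw [h0, ← hv', sdN_num, catN_num, hx] at h11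
  have h12 := Pool.Agent.Helper78.Avg.num_injective h11
  rw [← hv', (Pool.Agent.Helper31.TMS.sd_inj h12).2]

end Pool.Agent.Helper81.RP
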