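import Pool.Agent.Helper81.RP.Defs
import Pool.Agent.Helper81.RP.Dec
import Pool.Agent.Helper81.Sus2.Defs

/-!
# Programs of random access machines as machines with messages
-/

namespace Pool.Agent.Helper81.RP

open Pool.Agent.Helper65.LinSpace Pool.Agent.Helper78.Mpc Pool.Agent.Helper28.Ram
open Pool.Agent.Helper81.Sus2

/-! ### One step of the program in three parts -/

/-- The first register which is read. -/
def a0 : Option Ins → ℕ
  | some (.const i _) => i
  | some (.add _ j _) => j
  | some (.sub _ j _) => j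
  | some (.mul _ j _) => j
  | some (.div _ j _) => j
  | some (.load _ j) => j
  | some (.store i _) => i
  | some (.input _ j) => j
  | some (.advice _ j) => j
  | some (.jump i _) => i
  | some .accept => 0
  | none => 0

/-- `1` if a letter of the input is read. -/
def inp : Option Ins → ℕ
  | some (.input _ _) => 1
  | some (.advice _ _) => 1
  | _ => 0

/-- The second register which is read. -/
def a1 : Option Ins → ℕ → ℕ
  | some (.const i _), _ => i
  | some (.add _ _ k), _ => k
  | some (.sub _ _ k), _ => k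
  | some (.mul _ _ k), _ => k
  | some (.div _ _ k), _ => k
  | some (.load _ _), u => u
  | some (.store _ j), _ => j
  | some (.input i _), _ => i
  | some (.advice i _), _ => i
  | some (.jump _ _), _ => 0
  | some .accept, _ => 0
  | none, _ => 0

/-- The register which is changed. -/
def dst : Option Ins → ℕ → ℕ
  | some (.const i _), _ => i
  | some (.add i _ _), _ => i
  | some (.sub i _ _), _ => i
  | some (.mul i _ _), _ => i
  | some (.div i _ _), _ => i
  | some (.load i _), _ => i
  | some (.store _ _), u => u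
  | some (.input i _), _ => i
  | some (.advice i _), _ => i
  | some (.jump _ _), _ => 0
  | some .accept, _ => 0
  | none, _ => 0

/-- Its new content. -/
def val : Option Ins → ℕ → ℕ → ℕ
  | some (.const _ k), _, _ => k
  | some (.add _ _ _), u, v => u + v
  | some (.sub _ _ _), u, v => u - v
  | some (.mul _ _ _), u, v => u * v
  | some (.div _ _ _), u, v => u / v
  | some (.load _ _), _, v => v
  | some (.store _ _), _, v => v
  | some (.input _ _), _, v => v / 3
  | some (.advice _ _), _, v => v % 3
  | some (.jump _ _), _, v => v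
  | some .accept, _, v => v
  | none, _, v => v

/-- The number of the next instruction. -/
def npc : Option Ins → ℕ → ℕ → ℕ
  | some (.const _ _), pc, _ => pc + 1
  | some (.add _ _ _), pc, _ => pc + 1
  | some (.sub _ _ _), pc, _ => pc + 1
  | some (.mul _ _ _), pc, _ => pc + 1
  | some (.div _ _ _), pc, _ => pc + 1
  | some (.load _ _), pc, _ => pc + 1
  | some (.store _ _), pc, _ => pc + 1
  | some (.input _ _), pc, _ => pc + 1
  | some (.advice _ _), pc, _ => pc + 1
  | some (.jump _ l), pc, u => ifz u l (pc + 1)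
  | some .accept, pc, _ => pc
  | none, pc, _ => pc

/-- The content of the first register. -/
def uu (P : List Ins) (c : ℕ × (ℕ → ℕ)) : ℕ := c.2 (a0 P[c.1]?)

/-- The number of two letters. -/
def let2 (a b : Option Bool) : ℕ := 3 * lett a + lett b

theorem lett_le (a : Option Bool) : lett a ≤ 2 := by
  rcases a with _ | b
  · exact Nat.zero_le _
  · cases b
    · show 1 ≤ 2
      norm_num
    · exact le_rfl

theorem let2_le (a b : Option Bool) : let2 a b ≤ 8 := by
  have h1 := lett_le a
  have h2 := lett_le b
  unfold let2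
  omega

theorem let2_div (a b : Option Bool) : let2 a b / 3 = lett a := by
  have h2 := lett_le b
  unfold let2
  omega

theorem let2_mod (a b : Option Bool) : let2 a b % 3 = lett b := by
  have h2 := lett_le b
  unfold let2
  omega

/-- The content of the second register, or the two letters. -/
def vv (P : List Ins) (w y : List Bool) (c : ℕ × (ℕ → ℕ)) : ℕ :=
  ifz (inp P[c.1]?) (c.2 (a1 P[c.1]? (uu P c))) (let2 w[uu P c]? y[uu P c]?)

theorem step_eq (P : List Ins) (w y : List Bool) (c : ℕ × (ℕ → ℕ)) :
    step P w y c = (npc P[c.1]? c.1 (uu P c),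
      Function.update c.2 (dst P[c.1]? (uu P c)) (val P[c.1]? (uu P c) (vv P w y c))) := by
  unfold step vv uu
  rcases h : P[c.1]? with _ | o
  · simp [npc, dst, val, a1, inp, ifz]
  · cases o <;> simp [npc, dst, val, a0, a1, inp, ifz, let2_div, let2_mod]

/-! ### Codes of states -/

/-- The code of a state. -/
def st (f p u v : ℕ) : ℕ := f + 2 * (1 + Nat.pair p (Nat.pair u v))

/-- The number of the instruction and the phase. -/
def pOf (x : ℕ) : ℕ := (Nat.unpair (x / 2 - 1)).1

/-- The first number. -/
def uOf (x : ℕ) : ℕ := (Nat.unpair (Nat.unpair (x / 2 - 1)).2).1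

/-- The second number. -/
def vOf (x : ℕ) : ℕ := (Nat.unpair (Nat.unpair (x / 2 - 1)).2).2

theorem st_pos (f p u v : ℕ) : 0 < st f p u v := by
  unfold st
  omega

theorem st_half {f : ℕ} (hf : f ≤ 1) (p u v : ℕ) :
    st f p u v / 2 - 1 = Nat.pair p (Nat.pair u v) := by
  unfold st
  omega

theorem pOf_st {f : ℕ} (hf : f ≤ 1) (p u v : ℕ) : pOf (st f p u v) = p := by
  unfold pOf
  rw [st_half hf, Nat.unpair_pair]

theorem uOf_st {f : ℕ} (hf : f ≤ 1) (p u v : ℕ) : uOf (st f p u v) = u := by
  unfold uOf
  rw [st_half hf, Nat.unpair_pair, Nat.unpair_pair]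

theorem vOf_st {f : ℕ} (hf : f ≤ 1) (p u v : ℕ) : vOf (st f p u v) = v := by
  unfold vOf
  rw [st_half hf, Nat.unpair_pair, Nat.unpair_pair]

variable {α : Type} [Ctx α]

theorem ls_st {f p u v : α → ℕ} (hf : LS f) (hp : LS p) (hu : LS u) (hv : LS v) :
    LS (fun a => st (f a) (p a) (u a) (v a)) := by
  unfold st
  have h1 := ls_pair hu hv
  have h2 := ls_pair hp h1
  fun_prop

theorem ls_pOf {f : α → ℕ} (hf : LS f) : LS (fun a => pOf (f a)) := by
  unfold pOf
  fun_prop

theorem ls_uOf {f : α → ℕ} (hf : LS f) : LS (fun a => uOf (f a)) := by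
  unfold uOf
  fun_prop

theorem ls_vOf {f : α → ℕ} (hf : LS f) : LS (fun a => vOf (f a)) := by
  unfold vOf
  fun_prop

theorem ls_a1 (o : Option Ins) {u : α → ℕ} (hu : LS u) : LS (fun a => a1 o (u a)) := by
  rcases o with _ | o
  · exact LS.const 0
  · cases o <;> simp only [a1] <;> fun_prop

theorem ls_dst (o : Option Ins) {u : α → ℕ} (hu : LS u) : LS (fun a => dst o (u a)) := by
  rcases o with _ | o
  · exact LS.const 0
  · cases o <;> simp only [dst] <;> fun_prop

theorem ls_val (o : Option Ins) {u v : α → ℕ} (hu : LS u) (hv : LS v) :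
    LS (fun a => val o (u a) (v a)) := by
  rcases o with _ | o
  · exact hv
  · cases o <;> simp only [val] <;> fun_prop

theorem ls_npc (o : Option Ins) {p u : α → ℕ} (hp : LS p) (hu : LS u) :
    LS (fun a => npc o (p a) (u a)) := by
  rcases o with _ | o
  · exact hp
  · cases o <;> simp only [npc] <;> fun_prop

/-! ### Selection of the instruction -/

/-- The value of `G` for the instruction with the number `pc`. -/
def selF {α : Type} (G : Option Ins → α → ℕ) : List Ins → ℕ → α → ℕ
  | [], _, z => G none z
  | o :: l, pc, z => ifz pc (G (some o) z) (selF G l (pc - 1) z)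

theorem selF_eq {α : Type} (G : Option Ins → α → ℕ) (P : List Ins) (pc : ℕ) (z : α) :
    selF G P pc z = G P[pc]? z := by
  induction P generalizing pc with
  | nil => simp [selF]
  | cons o l ih =>
    rcases pc with _ | pc
    · simp [selF, ifz]
    · simp [selF, ifz, ih]

theorem ls_selF {G : Option Ins → α → ℕ} (hG : ∀ o, LS (G o)) (P : List Ins) {pc : α → ℕ}
    (hpc : LS pc) : LS (fun z => selF G P (pc z) z) := by
  induction P generalizing pc with
  | nil => exact hG none
  | cons o l ih =>
    have h1 := hG (some o)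
    have h2 := ih (pc := fun z => pc z - 1) (by fun_prop)
    show LS (fun z => ifz (pc z) (G (some o) z) (selF G l (pc z - 1) z))
    exact LS.ifz hpc h1 h2

/-- `1` for the accepting instruction. -/
def isA : Option Ins → ℕ
  | some .accept => 1
  | _ => 0

/-- `1` if the instruction with the number `pc` is accepting. -/
def accF (P : List Ins) (pc : ℕ) : ℕ := selF (fun o (_ : ℕ) => isA o) P pc pc

theorem accF_le (P : List Ins) (pc : ℕ) : accF P pc ≤ 1 := by
  unfold accF
  rw [selF_eq]
  unfold isA
  split <;> omega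

theorem accF_eq_one {P : List Ins} {pc : ℕ} : accF P pc = 1 ↔ P[pc]? = some .accept := by
  unfold accF
  rw [selF_eq]
  unfold isA
  split <;> simp_all

theorem ls_accF (P : List Ins) {f : α → ℕ} (hf : LS f) : LS (fun a => accF P (f a)) := by
  have h1 : LS (accF P) := ls_selF (α := ℕ) (G := fun o (_ : ℕ) => isA o) (fun o => LS.const _) P
    (pc := fun z => z) (by fun_prop)
  exact LS.comp (g := accF P) h1 hf

/-! ### The functions of the machine -/

/-- The name of the register which is read. -/
def addrF (P : List Ins) (x : ℕ) : ℕ :=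
  selF (fun o x => ifz (pOf x % 3) (2 * a0 o + 1) (ifz (pOf x % 3 - 1)
    (ifz (inp o) (2 * a1 o (uOf x) + 1) (2 * bitsN (uOf x))) 1)) P (pOf x / 3) x

/-- The new state. -/
def nextF (P : List Ins) (x : ℕ) : ℕ :=
  selF (fun o x => ifz (pOf (hd x) % 3) (st 0 (pOf (hd x) + 1) (tl x / 2 - 1) 0)
    (ifz (pOf (hd x) % 3 - 1) (st 0 (pOf (hd x) + 1) (uOf (hd x)) (tl x / 2 - 1))
      (st (accF P (npc o (pOf (hd x) / 3) (uOf (hd x))))
        (3 * npc o (pOf (hd x) / 3) (uOf (hd x))) 0 0))) P (pOf (hd x) / 3) x

/-- The new content. -/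
def writeF (P : List Ins) (x : ℕ) : ℕ :=
  selF (fun o x => ifz (eq01 (hd (tl x)) (2 * dst o (uOf (hd x)) + 1)) (tl (tl x))
    (val o (uOf (hd x)) (vOf (hd x)) + 1)) P (pOf (hd x) / 3) x

theorem ls_addrF (P : List Ins) : LS (addrF P) := by
  have hp : LS (fun x : ℕ => pOf x) := ls_pOf (by fun_prop)
  have hu : LS (fun x : ℕ => uOf x) := ls_uOf (by fun_prop)
  refine ls_selF (fun o => ?_) P (by fun_prop)
  have h1 : LS (fun x : ℕ => a1 o (uOf x)) := ls_a1 o hu
  have h2 : LS (fun x : ℕ => bitsN (uOf x)) := LS.bitsN hu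
  fun_prop

theorem ls_nextF (P : List Ins) : LS (nextF P) := by
  have hh := ls_hd
  have ht := ls_tl
  have hp : LS (fun x : ℕ => pOf (hd x)) := ls_pOf hh
  have hu : LS (fun x : ℕ => uOf (hd x)) := ls_uOf hh
  have hv : LS (fun x : ℕ => tl x / 2 - 1) := by
    have h1 : LS (fun x : ℕ => tl x) := ht
    fun_prop
  refine ls_selF (fun o => ?_) P (by fun_prop)
  have h1 : LS (fun x : ℕ => npc o (pOf (hd x) / 3) (uOf (hd x))) := ls_npc o (by fun_prop) hu
  have h2 := ls_accF P h1
  have h3 := ls_st (LS.const (α := ℕ) 0) (LS.add hp (LS.const 1)) hv (LS.const 0)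
  have h4 := ls_st (LS.const (α := ℕ) 0) (LS.add hp (LS.const 1)) hu hv
  have h5 := ls_st h2 (LS.mul (LS.const 3) h1) (LS.const 0) (LS.const 0)
  exact LS.ifz (by fun_prop) h3 (LS.ifz (by fun_prop) h4 h5)

theorem ls_writeF (P : List Ins) : LS (writeF P) := by
  have hh := ls_hd
  have ht := ls_tl
  have hp : LS (fun x : ℕ => pOf (hd x)) := ls_pOf hh
  have hu : LS (fun x : ℕ => uOf (hd x)) := ls_uOf hh
  have hv : LS (fun x : ℕ => vOf (hd x)) := ls_vOf hh
  refine ls_selF (fun o => ?_) P (by fun_prop)
  have h1 := ls_dst o hu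
  have h2 := ls_val o hu hv
  have h3 : LS (fun x : ℕ => hd (tl x)) := LS.comp (g := hd) hh ht
  have h4 : LS (fun x : ℕ => tl (tl x)) := LS.comp (g := tl) ht ht
  exact LS.ifz (LS.eq01 h3 (by fun_prop)) h4 (by fun_prop)

/-- The machine with messages which runs the program. -/
noncomputable def mach (P : List Ins) : NBM where
  start := wd (st (accF P 0) 0 0 0)
  init a b := wd (let2 a b + 1)
  addr := wf (addrF P)
  next := wf (nextF P)
  write := wf (writeF P)
  ask _ := false
  msg u := decide (pOf (num u) % 3 = 2)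
  reset _ := false
  addr_lin := linComp_wf (ls_addrF P)
  next_lin := linComp_wf (ls_nextF P)
  write_lin := linComp_wf (ls_writeF P)
  ask_lin := Pool.Agent.Helper31.TMS.linComp_of_ls (F := fun _ => 2) (LS.const 2) fun _ => rfl
  msg_lin := by
    have hp : LS (fun x : ℕ => pOf x) := ls_pOf (by fun_prop)
    refine Pool.Agent.Helper31.TMS.linComp_of_ls (F := fun x => 2 + eq01 (pOf x % 3) 2)
      (by fun_prop) fun u => ?_
    unfold eq01
    by_cases h : pOf (num u) % 3 = 2
    · simp [h, num]
    · simp [h, num]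
  reset_lin := Pool.Agent.Helper31.TMS.linComp_of_ls (F := fun _ => 2) (LS.const 2) fun _ => rfl

end Pool.Agent.Helper81.RP
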