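import Pool.Agent.Helper81.RP.Mach

/-!
# Programs of random access machines as machines with messages: the computation
-/

namespace Pool.Agent.Helper81.RP

open Pool.Agent.Helper65.LinSpace Pool.Agent.Helper78.Mpc Pool.Agent.Helper28.Ram
open Pool.Agent.Helper81.Sus2

/-- The memory with the contents `R` of the registers. -/
noncomputable def memW (w y : List Bool) (R : ℕ → ℕ) : List Bool → List Bool
  | [] => wd (R 0 + 1)
  | false :: u => wd (let2 w[bval u]? y[bval u]? + 1)
  | true :: u => wd (R (num u) + 1)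

theorem wd_one : wd 1 = [] := wd_num []

theorem mem0_eq (P : List Ins) (w y : List Bool) :
    (mach P).mem0 w y = memW w y fun _ => 0 := by
  funext i
  rcases i with _ | ⟨b, u⟩
  · show [] = wd (0 + 1)
    rw [zero_add, wd_one]
  · cases b
    · rfl
    · show [] = wd (0 + 1)
      rw [zero_add, wd_one]

theorem memW_num (w y : List Bool) (R : ℕ → ℕ) {i : List Bool} (hi : i.head? ≠ some false) :
    memW w y R i = wd (R (num i / 2) + 1) := by
  rcases i with _ | ⟨b, u⟩
  · rfl
  · cases b
    · exact absurd rfl hi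
    · show wd (R (num u) + 1) = wd (R ((true.toNat + 2 * num u) / 2) + 1)
      rw [Bool.toNat_true, show (1 + 2 * num u) / 2 = num u by omega]

theorem head_name (i : ℕ) : (wd (2 * i + 1)).head? ≠ some false := by
  intro h
  have h1 := num_wd (show 0 < 2 * i + 1 by omega)
  rcases h' : wd (2 * i + 1) with _ | ⟨b, u⟩
  · rw [h'] at h
    simp at h
  · rw [h'] at h h1
    simp only [List.head?_cons, Option.some.injEq] at h
    subst h
    change 0 + 2 * num u = _ at h1
    omega

theorem memW_name (w y : List Bool) (R : ℕ → ℕ) (i : ℕ) :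
    memW w y R (wd (2 * i + 1)) = wd (R i + 1) := by
  rw [memW_num w y R (head_name i), num_wd (by omega), show (2 * i + 1) / 2 = i by omega]

theorem memW_letter (w y : List Bool) (R : ℕ → ℕ) (u : ℕ) :
    num (memW w y R (wd (2 * bitsN u))) = let2 w[u]? y[u]? + 1 := by
  rw [wd_cons_false _ (by rw [bitsN_eq]; exact num_pos _), bitsN_eq, wd_num]
  show num (wd (let2 w[bval u.bits]? y[bval u.bits]? + 1)) = _
  rw [Pool.Agent.Helper31.TMS.bval_bits, num_wd (Nat.succ_pos _)]

/-- The word read by `next`. -/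
theorem tl_read (q c : List Bool) (n : ℕ) (h : num c = n + 1) :
    tl (num (sd q ++ false :: c)) / 2 - 1 = n := by
  rw [tl_eq]
  show (false.toNat + 2 * num c) / 2 - 1 = n
  rw [Bool.toNat_false, h]
  omega

theorem hd_read {x : ℕ} (hx : 0 < x) (c : List Bool) : hd (num (sd (wd x) ++ c)) = x := by
  rw [hd_eq, num_wd hx]

theorem step_of {A : NBM} {b : Bool} {S q : List Bool} {m : List Bool → List Bool}
    (h : A.next (sd S ++ (A.ask S && b) :: m (A.addr S)) = q) :
    A.step b (S, m) = (q, fun i => A.upd q i (m i)) := by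
  unfold NBM.step
  simp only [h]

section steps

variable (P : List Ins) (w y : List Bool)

theorem msg_st {f : ℕ} (hf : f ≤ 1) (p u v : ℕ) :
    (mach P).msg (wd (st f p u v)) = decide (p % 3 = 2) := by
  show decide (pOf (num (wd (st f p u v))) % 3 = 2) = _
  rw [num_wd (st_pos _ _ _ _), pOf_st hf]

theorem upd_silent {f : ℕ} (hf : f ≤ 1) {p : ℕ} (hp : p % 3 ≠ 2) (u v : ℕ) (i c : List Bool) :
    (mach P).upd (wd (st f p u v)) i c = c := by
  unfold NBM.upd
  rw [msg_st P hf]
  simp [hp]

theorem step0 {f : ℕ} (hf : f ≤ 1) (b : Bool) (pc : ℕ) (R : ℕ → ℕ) :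
    (mach P).step b (wd (st f (3 * pc) 0 0), memW w y R) =
      (wd (st 0 (3 * pc + 1) (R (a0 P[pc]?)) 0), memW w y R) := by
  have haddr : (mach P).addr (wd (st f (3 * pc) 0 0)) = wd (2 * a0 P[pc]? + 1) := by
    refine wf_eq ?_ (by omega)
    rw [num_wd (st_pos _ _ _ _)]
    unfold addrF
    rw [selF_eq, pOf_st hf, show 3 * pc % 3 = 0 by omega, show 3 * pc / 3 = pc by omega, ifz_zero]
  have hnext : (mach P).next (sd (wd (st f (3 * pc) 0 0)) ++
      ((mach P).ask (wd (st f (3 * pc) 0 0)) && b) ::
        memW w y R ((mach P).addr (wd (st f (3 * pc) 0 0)))) =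
      wd (st 0 (3 * pc + 1) (R (a0 P[pc]?)) 0) := by
    have hask : ((mach P).ask (wd (st f (3 * pc) 0 0)) && b) = false := rfl
    rw [haddr, memW_name, hask]
    refine wf_eq ?_ (st_pos _ _ _ _)
    unfold nextF
    rw [selF_eq, hd_read (st_pos _ _ _ _), pOf_st hf, show 3 * pc % 3 = 0 by omega,
      show 3 * pc / 3 = pc by omega, ifz_zero,
      tl_read _ _ (R (a0 P[pc]?)) (num_wd (Nat.succ_pos _))]
  rw [step_of hnext]
  refine Prod.ext rfl ?_
  funext i
  exact upd_silent P (by omega) (by omega) _ _ i _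

theorem step1 (b : Bool) (pc u : ℕ) (R : ℕ → ℕ) {v : ℕ}
    (hv : v = ifz (inp P[pc]?) (R (a1 P[pc]? u)) (let2 w[u]? y[u]?)) :
    (mach P).step b (wd (st 0 (3 * pc + 1) u 0), memW w y R) =
      (wd (st 0 (3 * pc + 2) u v),
        memW w y (Function.update R (dst P[pc]? u) (val P[pc]? u v))) := by
  have h0 : (0 : ℕ) ≤ 1 := by omega
  have hread : num (memW w y R ((mach P).addr (wd (st 0 (3 * pc + 1) u 0)))) = v + 1 := by
    have haddr : (mach P).addr (wd (st 0 (3 * pc + 1) u 0)) =
        wd (ifz (inp P[pc]?) (2 * a1 P[pc]? u + 1) (2 * bitsN u)) := by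
      refine wf_eq ?_ ?_
      · rw [num_wd (st_pos _ _ _ _)]
        unfold addrF
        rw [selF_eq, pOf_st h0, uOf_st h0, show (3 * pc + 1) % 3 = 1 by omega,
          show (3 * pc + 1) / 3 = pc by omega, ifz_ne one_ne_zero, Nat.sub_self, ifz_zero]
      · unfold ifz
        split_ifs
        · omega
        · rw [bitsN_eq]
          have := num_pos u.bits
          omega
    rw [haddr, hv]
    unfold ifz
    split_ifs
    · rw [memW_name, num_wd (Nat.succ_pos _)]
    · rw [memW_letter]
  have hnext : (mach P).next (sd (wd (st 0 (3 * pc + 1) u 0)) ++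
      ((mach P).ask (wd (st 0 (3 * pc + 1) u 0)) && b) ::
        memW w y R ((mach P).addr (wd (st 0 (3 * pc + 1) u 0)))) =
      wd (st 0 (3 * pc + 2) u v) := by
    have hask : ((mach P).ask (wd (st 0 (3 * pc + 1) u 0)) && b) = false := rfl
    rw [hask]
    refine wf_eq ?_ (st_pos _ _ _ _)
    unfold nextF
    rw [selF_eq, hd_read (st_pos _ _ _ _), pOf_st h0, uOf_st h0,
      show (3 * pc + 1) % 3 = 1 by omega, show (3 * pc + 1) / 3 = pc by omega,
      ifz_ne one_ne_zero, Nat.sub_self, ifz_zero, tl_read _ _ v hread]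
  rw [step_of hnext]
  refine Prod.ext rfl ?_
  funext i
  show (mach P).upd (wd (st 0 (3 * pc + 2) u v)) i (memW w y R i) = _
  have hmsg : (mach P).msg (wd (st 0 (3 * pc + 2) u v)) = true := by
    rw [msg_st P h0]
    exact decide_eq_true (by omega)
  have hwrite : ∀ c : List Bool,
      writeF P (num (sd (wd (st 0 (3 * pc + 2) u v)) ++ (sd i ++ c))) =
        ifz (eq01 (num i) (2 * dst P[pc]? u + 1)) (num c) (val P[pc]? u v + 1) := by
    intro c
    unfold writeF
    rw [selF_eq, hd_read (st_pos _ _ _ _), pOf_st h0, uOf_st h0, vOf_st h0,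
      show (3 * pc + 2) / 3 = pc by omega, tl_eq, hd_eq, tl_eq]
  have hw : ∀ c : List Bool, i.head? ≠ some false →
      (mach P).upd (wd (st 0 (3 * pc + 2) u v)) i c =
        wd (ifz (eq01 (num i) (2 * dst P[pc]? u + 1)) (num c) (val P[pc]? u v + 1)) := by
    intro c hi
    unfold NBM.upd
    rw [if_pos ⟨hmsg, hi⟩]
    refine wf_eq ?_ ?_
    · exact hwrite c
    · unfold ifz
      split_ifs
      · exact num_pos c
      · omega
  by_cases hi : i.head? = some false
  · unfold NBM.upd
    rw [if_neg (by simp [hi])]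
    rcases i with _ | ⟨b', u'⟩
    · simp at hi
    · simp only [List.head?_cons, Option.some.injEq] at hi
      subst hi
      rfl
  · rw [hw _ hi, memW_num w y R hi]
    show _ = memW w y (Function.update R (dst P[pc]? u) (val P[pc]? u v)) i
    rw [memW_num w y _ hi]
    have hodd : num i % 2 = 1 := by
      rcases i with _ | ⟨b', u'⟩
      · rfl
      · cases b'
        · exact absurd rfl hi
        · show (true.toNat + 2 * num u') % 2 = 1
          rw [Bool.toNat_true]
          omega
    by_cases hd' : num i / 2 = dst P[pc]? u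
    · have h1 : eq01 (num i) (2 * dst P[pc]? u + 1) = 1 := eq01_of (by omega)
      rw [h1, ifz_ne one_ne_zero, hd', Function.update_self]
    · have h1 : eq01 (num i) (2 * dst P[pc]? u + 1) = 0 := by
        unfold eq01
        rw [if_neg (by omega)]
      rw [h1, ifz_zero, wd_num, Function.update_of_ne hd']

theorem step2 (b : Bool) (pc u v : ℕ) (R : ℕ → ℕ) :
    (mach P).step b (wd (st 0 (3 * pc + 2) u v), memW w y R) =
      (wd (st (accF P (npc P[pc]? pc u)) (3 * npc P[pc]? pc u) 0 0), memW w y R) := by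
  have h0 : (0 : ℕ) ≤ 1 := by omega
  have hnext : (mach P).next (sd (wd (st 0 (3 * pc + 2) u v)) ++
      ((mach P).ask (wd (st 0 (3 * pc + 2) u v)) && b) ::
        memW w y R ((mach P).addr (wd (st 0 (3 * pc + 2) u v)))) =
      wd (st (accF P (npc P[pc]? pc u)) (3 * npc P[pc]? pc u) 0 0) := by
    refine wf_eq ?_ (st_pos _ _ _ _)
    unfold nextF
    rw [selF_eq, hd_read (st_pos _ _ _ _), pOf_st h0, uOf_st h0,
      show (3 * pc + 2) % 3 = 2 by omega, show (3 * pc + 2) / 3 = pc by omega,
      ifz_ne two_ne_zero, ifz_ne (by norm_num)]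
  rw [step_of hnext]
  refine Prod.ext rfl ?_
  funext i
  exact upd_silent P (accF_le _ _) (by omega) _ _ i _

end steps

/-! ### The computation -/

theorem conf_succ (P : List Ins) (w y : List Bool) (t : ℕ) :
    conf P w y (t + 1) = step P w y (conf P w y t) := by
  unfold conf
  rw [Function.iterate_succ_apply']

theorem nconf_succ (A : NBM) (w y : List Bool) (g : ℕ → Bool) (t : ℕ) :
    A.conf w y g (t + 1) = A.step (g t) (A.conf w y g t) := rfl

/-- The configurations of the machine with messages. -/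
theorem conf_mach (P : List Ins) (w y : List Bool) (g : ℕ → Bool) (t : ℕ) :
    (mach P).conf w y g (3 * t) = (wd (st (accF P (conf P w y t).1) (3 * (conf P w y t).1) 0 0),
      memW w y (conf P w y t).2) := by
  induction t with
  | zero =>
    show ((mach P).start, (mach P).mem0 w y) = _
    rw [mem0_eq]
    rfl
  | succ t ih =>
    rw [show 3 * (t + 1) = 3 * t + 1 + 1 + 1 by ring, nconf_succ, nconf_succ, nconf_succ, ih,
      step0 P w y (accF_le _ _), step1 P w y _ _ _ _ rfl, step2, conf_succ, step_eq]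
    rfl

theorem conf_mach1 (P : List Ins) (w y : List Bool) (g : ℕ → Bool) (t : ℕ) :
    (mach P).conf w y g (3 * t + 1) = (wd (st 0 (3 * (conf P w y t).1 + 1) (uu P (conf P w y t)) 0),
      memW w y (conf P w y t).2) := by
  rw [nconf_succ, conf_mach, step0 P w y (accF_le _ _)]
  rfl

theorem conf_mach2 (P : List Ins) (w y : List Bool) (g : ℕ → Bool) (t : ℕ) :
    (mach P).conf w y g (3 * t + 2) = (wd (st 0 (3 * (conf P w y t).1 + 2) (uu P (conf P w y t))
      (vv P w y (conf P w y t))), memW w y (conf P w y (t + 1)).2) := by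
  rw [show 3 * t + 2 = 3 * t + 1 + 1 by ring, nconf_succ, conf_mach1,
    step1 P w y _ _ _ _ (v := vv P w y (conf P w y t)) rfl, conf_succ, step_eq]

theorem head_wd {n : ℕ} (hn : 0 < n) : (wd n).head? = some true ↔ n % 2 = 1 ∧ 1 < n := by
  have h := num_wd hn
  rcases h' : wd n with _ | ⟨b, u⟩
  · rw [h'] at h
    change 1 = n at h
    subst h
    simp
  · rw [h'] at h
    change b.toNat + 2 * num u = n at h
    have := num_pos u
    cases b
    · rw [Bool.toNat_false] at h
      simp only [List.head?_cons, Option.some.injEq, Bool.false_eq_true, false_iff]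
      omega
    · rw [Bool.toNat_true] at h
      simp only [List.head?_cons, true_iff]
      omega

theorem head_st {f : ℕ} (hf : f ≤ 1) (p u v : ℕ) :
    (wd (st f p u v)).head? = some true ↔ f = 1 := by
  rw [head_wd (st_pos _ _ _ _)]
  unfold st
  omega

/-- Acceptance. -/
theorem accepts_iff (P : List Ins) (w y : List Bool) (g : ℕ → Bool) (r : ℕ) :
    (mach P).AcceptsAt w y g r ↔ ∃ t, r = 3 * t ∧ AcceptsAt P w y t := by
  unfold NBM.AcceptsAt AcceptsAt
  constructor
  · intro h
    obtain ⟨t, ht⟩ : ∃ t, r = 3 * t ∨ r = 3 * t + 1 ∨ r = 3 * t + 2 := ⟨r / 3, by omega⟩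
    rcases ht with ht | ht | ht
    · refine ⟨t, ht, ?_⟩
      rw [ht, conf_mach, head_st (accF_le _ _), accF_eq_one] at h
      exact h
    · rw [ht, conf_mach1, head_st (by omega)] at h
      omega
    · rw [ht, conf_mach2, head_st (by omega)] at h
      omega
  · rintro ⟨t, rfl, h⟩
    rw [conf_mach, head_st (accF_le _ _), accF_eq_one]
    exact h

end Pool.Agent.Helper81.RP
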